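import Pool.Agent.H13.EDM.TargetsB
import Pool.Agent.H2.ED.Rec1

/-!
# Row PTB: the backward recursion for families of points
-/

set_option autoImplicit false

open MvPolynomial
open Pool.Agent.H12.ZD (pmap)
open Pool.Agent.H18.HIT Pool.Agent.H18.HX Pool.Agent.H18.VZ
open Pool.Agent.H8.ZA (HFam Const NA)
open Pool.Agent.H8.TD (lc dg Wsp)
open Pool.Agent.H8.TX (hn)
open Pool.Agent.H2.ED
open Pool.Agent.H18.EDB (dgm Rcb)
open Pool.Agent.H8.EDA (Rcf)
open Pool.Agent.H13.EDM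

namespace Pool.Agent.H4.EDM

/-- evaluations of regular functions at families of points -/
theorem core (hRGN : T_RGN) {ν r d m : ℕ} {P : Po (ν + 2) Qb} {F : Tup (ν + 2) Qb} {K : Type}
    [Field K] [Algebra Qb K] {ξ : Fin (ν + 2) → K} {τ : K →ₐ[Qb] K} (hP : Hyp P r)
    (hF : ∀ i, (F i).IsHomogeneous d) (hs : Slf (Ideal.span {P}) F) (hfd : Fd P F ξ τ) :
    ∃ (R : Subalgebra Qb K) (x φ χ : Fin (ν + 2) → R), (∀ l, (x l : K) = ξ l) ∧
      (∀ l, (φ l : K) = τ^[m] (ξ l)) ∧ (∀ l, (χ l : K) = τ^[m + m] (ξ l)) ∧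
      ∀ β : Fin (ν + 2) → R, (∀ l, β l ≠ 0) → ∃ T : Finset (Po (ν + 2) Qb),
        (∀ p ∈ T, aeval ξ p ≠ 0) ∧ ∀ (K' : IntermediateField ℚ Qb) (μ : ℕ)
        (z : Fin μ → Fin (ν + 2) → Qb), (∀ j, eval (z j) P = 0) → (∀ j, z j 1 = 1) →
        (∀ j, ∀ p ∈ T, eval (z j) p ≠ 0) → (∀ p ∈ T, ∏ j, eval (z j) p ∈ K') →
        ∃ ev : Fin μ → (R →ₐ[Qb] Qb), (∀ l j, ev j (β l) ≠ 0) ∧ (∀ l, ∏ j, ev j (β l) ∈ K') ∧
          (∀ j, (fun l => ev j (x l)) = z j) ∧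
          (∀ j, (fun l => ev j (φ l)) = af (pmap (it F m) (z j))) ∧
          (∀ j, (fun l => ev j (χ l)) = af (pmap (it F (m + m)) (z j))) := by
  classical
  have hne : ∀ n, aeval ξ (it F n 1) ≠ 0 := fun n => (pn_eq hfd hP hF hs n).1
  have heq : ∀ n i, pn τ ξ n i = aeval ξ (it F n i) / aeval ξ (it F n 1) := fun n =>
    (pn_eq hfd hP hF hs n).2
  obtain ⟨q, hqdef⟩ : ∃ q : Po (ν + 2) Qb, q = it F m 1 * it F (m + m) 1 := ⟨_, rfl⟩
  have hq : aeval ξ q ≠ 0 := by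
    rw [hqdef, map_mul]
    exact mul_ne_zero (hne _) (hne _)
  obtain ⟨R, hmem, hinv, hevR, hnumR⟩ := hRGN ν Qb K P q ξ hfd.gp hq
  have hpn : ∀ n, n = m ∨ n = m + m → ∀ i, pn τ ξ n i ∈ R := by
    intro n hn i
    rw [heq n i]
    have h1 : (aeval ξ (it F n 1))⁻¹ ∈ R := by
      rcases hn with rfl | rfl
      · have h2 : (aeval ξ (it F n 1))⁻¹ = (aeval ξ q)⁻¹ * aeval ξ (it F (n + n) 1) := by
          rw [hqdef, map_mul, mul_inv, mul_assoc, inv_mul_cancel₀ (hne _), mul_one]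
        rw [h2]
        exact mul_mem hinv (hmem _)
      · have h2 : (aeval ξ (it F (m + m) 1))⁻¹ = (aeval ξ q)⁻¹ * aeval ξ (it F m 1) := by
          rw [hqdef, map_mul, mul_inv, mul_comm (aeval ξ (it F m 1))⁻¹, mul_assoc,
            inv_mul_cancel₀ (hne _), mul_one]
        rw [h2]
        exact mul_mem hinv (hmem _)
    rw [div_eq_mul_inv]
    exact mul_mem (hmem _) h1
  have hξR : ∀ i, ξ i ∈ R := by
    intro i
    have h1 := hmem (X i)
    rwa [aeval_X] at h1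
  refine ⟨R, fun i => ⟨ξ i, hξR i⟩, fun i => ⟨pn τ ξ m i, hpn m (Or.inl rfl) i⟩,
    fun i => ⟨pn τ ξ (m + m) i, hpn (m + m) (Or.inr rfl) i⟩, fun _ => rfl, fun _ => rfl,
    fun _ => rfl, fun β hβ => ?_⟩
  choose p n hnum using fun i => hnumR (β i)
  have hp : ∀ i, aeval ξ (p i) ≠ 0 := by
    intro i
    rw [← hnum]
    exact mul_ne_zero (fun h0 => hβ i (Subtype.ext h0)) (pow_ne_zero _ hq)
  refine ⟨insert q (Finset.univ.image p), ?_, fun K' μ z hzP hz1 hzT hzK => ?_⟩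
  · intro p' hp'
    rcases Finset.mem_insert.1 hp' with rfl | h4
    · exact hq
    · obtain ⟨i, -, rfl⟩ := Finset.mem_image.1 h4
      exact hp i
  have hzq' : ∀ j, eval (z j) q ≠ 0 := fun j => hzT j q (Finset.mem_insert_self _ _)
  have hzp : ∀ j i, eval (z j) (p i) ≠ 0 := fun j i => hzT j (p i)
    (Finset.mem_insert_of_mem (Finset.mem_image_of_mem _ (Finset.mem_univ i)))
  choose ev hev using fun j => hevR (z j) (hzP j) (hz1 j) (hzq' j)
  have hb1 : ∀ j i, ev j (β i) * eval (z j) q ^ n i = eval (z j) (p i) := by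
    intro j i
    have h4 : β i * (⟨aeval ξ q, hmem q⟩ : R) ^ n i = ⟨aeval ξ (p i), hmem _⟩ :=
      Subtype.ext (hnum i)
    have h5 := congrArg (ev j) h4
    rw [map_mul, map_pow, hev, hev] at h5
    exact h5
  have hb2 : ∀ i j, ev j (β i) ≠ 0 := by
    intro i j h0
    have h4 := hb1 j i
    rw [h0, zero_mul] at h4
    exact hzp j i h4.symm
  have hb3 : ∀ i, ∏ j, ev j (β i) ∈ K' := by
    intro i
    have h5 : ∏ j, ev j (β i) = (∏ j, eval (z j) (p i)) / (∏ j, eval (z j) q) ^ n i := by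
      rw [eq_div_iff (pow_ne_zero _ (Finset.prod_ne_zero_iff.2 fun j _ => hzq' j)),
        ← Finset.prod_pow, ← Finset.prod_mul_distrib]
      exact Finset.prod_congr rfl fun j _ => hb1 j i
    rw [h5]
    exact div_mem (hzK _ (Finset.mem_insert_of_mem
      (Finset.mem_image_of_mem _ (Finset.mem_univ i)))) (pow_mem (hzK _
        (Finset.mem_insert_self _ _)) _)
  have hzq : ∀ j, eval (z j) (it F m 1) ≠ 0 ∧ eval (z j) (it F (m + m) 1) ≠ 0 := by
    intro j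
    have h4 := hzq' j
    rw [hqdef, map_mul] at h4
    exact ⟨left_ne_zero_of_mul h4, right_ne_zero_of_mul h4⟩
  have haff : ∀ (n : ℕ) (φ : Fin (ν + 2) → R) (j : Fin μ), eval (z j) (it F n 1) ≠ 0 →
      (∀ i, (φ i : K) = pn τ ξ n i) →
      (fun i => ev j (φ i)) = af (pmap (it F n) (z j)) := by
    intro n φ j hn hφ
    funext i
    have h4 : φ i * ⟨aeval ξ (it F n 1), hmem _⟩ = ⟨aeval ξ (it F n i), hmem _⟩ := by
      apply Subtype.ext
      change (φ i : K) * aeval ξ (it F n 1) = aeval ξ (it F n i)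
      rw [hφ, heq, div_mul_cancel₀ _ (hne n)]
    have h5 := congrArg (ev j) h4
    rw [map_mul, hev, hev] at h5
    rw [af, pmap, pmap, eq_div_iff hn]
    exact h5
  refine ⟨ev, hb2, hb3, ?_, fun j => haff m _ j (hzq j).1 fun _ => rfl,
    fun j => haff (m + m) _ j (hzq j).2 fun _ => rfl⟩
  intro j
  funext i
  have h4 : (⟨ξ i, hξR i⟩ : R) = ⟨aeval ξ (X i), hmem _⟩ := Subtype.ext (aeval_X ξ i).symm
  show ev j ⟨ξ i, hξR i⟩ = z j i
  rw [h4, hev, eval_X]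

theorem pf_PTB (hRCB : T_RCB) (hRGN : T_RGN) : T_PTB := by
  intro ν r d m i l₀ ρ P F K _ _ ξ τ hν hP hF hs hfd hi hl hρ hnum
  obtain ⟨R, x, φ, χ, hx, hφ, hχ, hR⟩ := core (m := m) hRGN hP hF hs hfd
  have hxf : (fun l => algebraMap R K (x l)) = ξ := funext hx
  have h1 := hRCB ν (ν + 2) m i l₀ ρ R K τ x φ χ Subtype.val_injective hfd.gp.trd hν
    (by
      rw [hxf]
      exact hfd.gp.top)
    (fun l => by
      show (φ l : K) = τ^[m] (x l : K)
      rw [hφ, hx])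
    (fun l => by
      show (χ l : K) = τ^[m + m] (x l : K)
      rw [hχ, hx]) hi hl hρ
    (by
      rw [hxf]
      exact hnum)
  obtain ⟨β, hβ, hkey⟩ := h1
  obtain ⟨T, hT, hev⟩ := hR β hβ
  refine ⟨T, hT, fun K' F' => ?_⟩
  obtain ⟨c, hc⟩ := hkey K' F'
  refine ⟨c, fun μ z hzP hz1 hzT hzK => ?_⟩
  obtain ⟨ev, e1, e2, e3, e4, e5⟩ := hev K' μ z hzP hz1 hzT hzK
  have h2 := hc μ ev e1 e2
  simp only [e3, e4, e5] at h2
  exact h2

theorem pf_PTF (hRCA : T_RCA) (hRGN : T_RGN) : T_PTF := by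
  intro ν r d m i l₀ ρ P F K _ _ ξ τ hν hP hF hs hfd hi hl hρ hnum
  obtain ⟨R, x, φ, χ, hx, hφ, hχ, hR⟩ := core (m := m) hRGN hP hF hs hfd
  have hxf : (fun l => algebraMap R K (x l)) = ξ := funext hx
  have h1 := hRCA ν (ν + 2) m i l₀ ρ R K τ x φ χ Subtype.val_injective hfd.gp.trd hν
    (by
      rw [hxf]
      exact hfd.gp.top)
    (fun l => by
      show (φ l : K) = τ^[m] (x l : K)
      rw [hφ, hx])
    (fun l => by
      show (χ l : K) = τ^[m + m] (x l : K)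
      rw [hχ, hx]) hi hl hρ
    (by
      rw [hxf]
      exact hnum)
  obtain ⟨β, hβ, hkey⟩ := h1
  obtain ⟨T, hT, hev⟩ := hR β hβ
  refine ⟨T, hT, fun K' F' => ?_⟩
  obtain ⟨c, hc⟩ := hkey K' F'
  refine ⟨c, fun μ z hzP hz1 hzT hzK => ?_⟩
  obtain ⟨ev, e1, e2, e3, e4, e5⟩ := hev K' μ z hzP hz1 hzT hzK
  have h2 := hc μ ev e1 e2
  simp only [e3, e4, e5] at h2
  exact h2

end Pool.Agent.H4.EDM
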